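import Pool.Agent.Y522.Sch
import Pool.Agent.U498.AA.Glob

/-!
# Smooth Schoenflies theorems for balls which are smoothed by the engines of `U211.BL` and `U498.AA`

`smoothingAC` and `smoothingPC` are `smoothingA` and `smoothingP` with the compact set chosen
before the size of the approximation; `fin` follows `Pool/Agent/Y514/SH/Base.lean` (`finish`) and
`Pool/Agent/Y514/SH/Sch2.lean`.
-/

set_option autoImplicit false

open Set Filter Topology Metric Function MeasureTheory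
open scoped Manifold ContDiff

noncomputable section

namespace Pool.Agent.U987.SB

open Pool.Agent.Y522 Pool.Agent.U211.BL Pool.Agent.U498.AA Pool.Agent.Y833.SH Pool.Agent.Y674.SH
  Pool.Agent.Y514.SH

/-- `F` can be smoothed on a fixed compact set, by arbitrarily close maps -/
def Smoothable (n : ℕ) {X : Type} [TopologicalSpace X] [ChartedSpace (E n) X] (F : X → E n) :
    Prop :=
  ∃ C : Set X, IsCompact C ∧ ∀ ε₀ > 0, ∃ F' : X → E n, (∀ x, x ∉ C → F' x = F x) ∧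
    (∀ x, LD n F' x) ∧ ∀ x, ‖F' x - F x‖ ≤ ε₀

theorem smoothingAC {n : ℕ} {X : Type} [TopologicalSpace X] [ChartedSpace (E n) X] [T2Space X]
    (F : X → E n) (hF : Continuous F) (hFi : Injective F)
    (hK : IsCompact {x | ¬ LD n F x}) (hAA : ∀ x, ¬ LD n F x → AAat n F x) :
    Smoothable n F := by
  have hAA' : ∀ x, AAat n F x := by
    intro x
    by_cases hx : LD n F x
    · exact AAat_of_LD hx
    · exact hAA x hx
  have h4 : ∀ x : X, ∃ B : E n → X, B 0 = x ∧ Box B := by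
    intro x
    obtain ⟨B, h1, h2, -⟩ := exists_boxA (hAA' x)
    exact ⟨B, h1, h2⟩
  choose B hB0 hB using h4
  have hU : ∀ x ∈ {x | ¬ LD n F x}, B x '' ball 0 (1 / 2) ∈ 𝓝 x := by
    intro x _
    have h2 : LD n (B x) 0 := (hB x).ld 0 (by simp)
    have h3 := h2.image_mem_nhds (ball_mem_nhds (0 : E n) (by norm_num : (0 : ℝ) < 1 / 2))
    rwa [hB0 x] at h3
  obtain ⟨t, -, ht⟩ := hK.elim_nhds_subcover (fun x => B x '' ball 0 (1 / 2)) hU
  refine ⟨⋃ j : Fin t.card, B (t.equivFin.symm j).1 '' closedBall 0 1,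
    isCompact_iUnion fun j => box_isCompact (hB _) (by norm_num), fun ε₀ hε₀ => ?_⟩
  obtain ⟨F', g1, g2, g3, g4⟩ := smoothingB (N := t.card) F hF hFi hAA'
    (fun j => B (t.equivFin.symm j).1) (fun j => hB _) (by
      intro x hx
      have h2 := ht hx
      rw [mem_iUnion₂] at h2
      obtain ⟨y, hy, hxy⟩ := h2
      exact ⟨t.equivFin ⟨y, hy⟩, by simpa using hxy⟩) hε₀
  refine ⟨F', ?_, g2, g3⟩
  intro x hx
  apply g1
  intro j hj
  exact hx (mem_iUnion.2 ⟨j, hj⟩)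

theorem smoothingPC {n : ℕ} {X : Type} [TopologicalSpace X] [ChartedSpace (E n) X] [T2Space X]
    (F : X → E n) (hF : Continuous F) (hK : IsCompact {x | ¬ LD n F x})
    (hbl : ∀ x, ¬ LD n F x → ∃ ρ, Good n ρ ∧ BiLipAt n F ρ x) :
    Smoothable n F := by
  have h4 : ∀ x, ¬ LD n F x → ∃ (B : E n → X) (b ρ : ℝ), B 0 = x ∧ Box B ∧ BLip F ρ B b ∧
      Good n ρ := by
    intro x hx
    obtain ⟨ρ, hρ, A, hA0, hAd, α, r, hα, hr, h⟩ := hbl x hx
    obtain ⟨B, b, h1, h2, h3⟩ := exists_box hA0 hAd hα hr h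
    exact ⟨B, b, ρ, h1, h2, h3, hρ⟩
  choose! B b ρ hB0 hB hBL hρ using h4
  have hU : ∀ x (hx : x ∈ {x | ¬ LD n F x}), B x '' ball 0 (1 / 2) ∈ 𝓝 x := by
    intro x hx
    have h2 : LD n (B x) 0 := (hB x hx).ld 0 (by simp)
    have h3 := h2.image_mem_nhds (ball_mem_nhds (0 : E n) (by norm_num : (0 : ℝ) < 1 / 2))
    rwa [hB0 x hx] at h3
  obtain ⟨t, ht⟩ := hK.elim_nhds_subcover' (fun x _ => B x '' ball 0 (1 / 2)) hU
  obtain ⟨ρ₁, ⟨h1, h2, h3⟩, hρ₁⟩ := exists_good (n := n)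
    (fun j : Fin t.card => ρ ((t.equivFin.symm j).1 : X))
    (fun j => hρ _ (t.equivFin.symm j).1.2)
  have hBL' : ∀ j : Fin t.card, BLip F ρ₁ (B ((t.equivFin.symm j).1 : X))
      (b ((t.equivFin.symm j).1 : X)) := by
    intro j
    have h5 := hBL _ (t.equivFin.symm j).1.2
    refine ⟨h5.pos, h5.low, fun p hp q hq => (h5.up p hp q hq).trans ?_⟩
    exact mul_le_mul_of_nonneg_right (hρ₁ j) (mul_nonneg h5.pos.le (norm_nonneg _))
  refine ⟨⋃ j : Fin t.card, B ((t.equivFin.symm j).1 : X) '' closedBall 0 1,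
    isCompact_iUnion fun j => box_isCompact (hB _ (t.equivFin.symm j).1.2) (by norm_num),
    fun ε₀ hε₀ => ?_⟩
  obtain ⟨F', g1, g2, g3, g4⟩ := smoothing (N := t.card) F hF h1 h2 h3
    (fun j => B ((t.equivFin.symm j).1 : X)) (fun j => b ((t.equivFin.symm j).1 : X))
    (fun j => hB _ (t.equivFin.symm j).1.2) hBL' (by
      intro x hx
      have h2 := ht hx
      rw [mem_iUnion₂] at h2
      obtain ⟨y, hy, hxy⟩ := h2
      exact ⟨t.equivFin ⟨y, hy⟩, by simpa using hxy⟩) hε₀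
  refine ⟨F', ?_, g2, g3⟩
  intro x hx
  apply g1
  intro j hj
  exact hx (mem_iUnion.2 ⟨j, hj⟩)

/-- the common end: `finish` of `Pool/Agent/Y514/SH/Base.lean` with the additional conclusions -/
theorem finish2 (hE : StExtO) (n : ℕ) (H : E n → E n) (δ : ℝ) (hδ : 0 < δ)
    (hi : InjOn H (ball 0 (1 + δ))) (hL : ∀ x, 1 ≤ ‖x‖ → ‖x‖ < 1 + δ → LD n H x)
    (F' : E n → E n) (C : Set (E n)) (hC : IsCompact C) (hF'i : Injective F')
    (hr : range F' = range (fun y => H (UB n y)))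
    (hF'C : ∀ p, p ∉ C → F' p = H (UB n p))
    (hF'L : ∀ x, LD n F' x) {ε : ℝ} (hε : 0 < ε) (hcl : ∀ x, ‖F' x - H (UB n x)‖ ≤ ε) :
    ∃ (G : E n → E n) (O : E n ≃ₗᵢ[ℝ] E n) (R' : ℝ), Bijective G ∧
      (∀ x, LD n G x) ∧ (∃ s < 1, ∀ x, s ≤ ‖x‖ → ‖x‖ ≤ 1 → G x = H x) ∧
      G '' closedBall 0 1 = H '' closedBall 0 1 ∧
      (∀ x, ‖x‖ ≤ 1 → ‖G x - H x‖ ≤ ε) ∧ ∀ x, R' ≤ ‖x‖ → G x = O x := by
  classical
  rw [range_comp_UB] at hr
  set H' : E n → E n := fun x => if ‖x‖ < 1 then F' ((UB n).symm x) else H x with hH'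
  have hH1 : ∀ x, ‖x‖ < 1 → H' x = F' ((UB n).symm x) := fun x hx => if_pos hx
  have hH2 : ∀ x, 1 ≤ ‖x‖ → H' x = H x := fun x hx => if_neg (not_lt.2 hx)
  have hBC : IsCompact (UB n '' C) := hC.image (UB_continuous n)
  have hBCs : ∀ y ∈ UB n '' C, ‖y‖ < 1 := by
    rintro _ ⟨y, _, rfl⟩
    exact UB_norm n y
  have hH3 : ∀ y, y ∉ UB n '' C → H' y = H y := by
    intro y hy
    by_cases h : ‖y‖ < 1
    · rw [hH1 y h, hF'C, UB_right n h]
      intro hc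
      exact hy ⟨_, hc, UB_right n h⟩
    · exact hH2 y (not_lt.1 h)
  have hH'L : ∀ x, ‖x‖ < 1 + δ → LD n H' x := by
    intro x hx
    by_cases h : ‖x‖ < 1
    · have h1 : LD n (fun z => F' ((UB n).symm z)) x :=
        LD.comp_fun (g := F') (f := (UB n).symm) (hF'L _) (UB_symm_LD n h)
      refine h1.congr ?_
      have h2 : ∀ᶠ z in 𝓝 x, ‖z‖ < 1 := continuous_norm.continuousAt.eventually (gt_mem_nhds h)
      filter_upwards [h2] with z hz
      exact hH1 z hz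
    · refine (hL x (not_lt.1 h) hx).congr ?_
      have h2 : (UB n '' C)ᶜ ∈ 𝓝 x := hBC.isClosed.isOpen_compl.mem_nhds fun hc => h (hBCs x hc)
      filter_upwards [h2] with z hz
      exact hH3 z hz
  have hmemr : ∀ x, ‖x‖ < 1 → ∃ z, ‖z‖ < 1 ∧ H z = H' x := by
    intro x hx
    have h1 : H' x ∈ range F' := by rw [hH1 x hx]; exact mem_range_self _
    rw [hr] at h1
    obtain ⟨z, hz, hz2⟩ := h1
    exact ⟨z, mem_ball_zero_iff.1 hz, hz2⟩
  have hH'i : ∀ x y, ‖x‖ < 1 + δ → ‖y‖ < 1 + δ → H' x = H' y → x = y := by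
    have key : ∀ x y, ‖x‖ < 1 → 1 ≤ ‖y‖ → ‖y‖ < 1 + δ → H' x ≠ H' y := by
      intro x y hx hy hy2 hxy
      obtain ⟨z, hz, hz2⟩ := hmemr x hx
      rw [hxy, hH2 y hy] at hz2
      have := hi (mem_ball_zero_iff.2 (by linarith)) (mem_ball_zero_iff.2 hy2) hz2
      rw [this] at hz
      linarith
    intro x y hx hy hxy
    by_cases h1 : ‖x‖ < 1
    · by_cases h2 : ‖y‖ < 1
      · rw [hH1 x h1, hH1 y h2] at hxy
        have h3 := hF'i hxy
        rw [← UB_right n h1, ← UB_right n h2, h3]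
      · exact absurd hxy (key x y h1 (not_lt.1 h2) hy)
    · by_cases h2 : ‖y‖ < 1
      · exact absurd hxy.symm (key y x h2 (not_lt.1 h1) hx)
      · rw [hH2 x (not_lt.1 h1), hH2 y (not_lt.1 h2)] at hxy
        exact hi (mem_ball_zero_iff.2 hx) (mem_ball_zero_iff.2 hy) hxy
  have hH'im : H' '' closedBall 0 1 = H '' closedBall 0 1 := by
    apply Subset.antisymm
    · rintro _ ⟨x, hx, rfl⟩
      rw [mem_closedBall_zero_iff] at hx
      rcases hx.lt_or_eq with h | h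
      · obtain ⟨z, hz, hz2⟩ := hmemr x h
        exact ⟨z, mem_closedBall_zero_iff.2 hz.le, hz2⟩
      · exact ⟨x, mem_closedBall_zero_iff.2 hx, (hH2 x h.ge).symm⟩
    · rintro _ ⟨x, hx, rfl⟩
      rw [mem_closedBall_zero_iff] at hx
      rcases hx.lt_or_eq with h | h
      · have h1 : H x ∈ range F' := by
          rw [hr]
          exact ⟨x, mem_ball_zero_iff.2 h, rfl⟩
        obtain ⟨w, hw⟩ := h1
        refine ⟨UB n w, mem_closedBall_zero_iff.2 (UB_norm n w).le, ?_⟩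
        rw [hH1 _ (UB_norm n w), UB_left, hw]
      · exact ⟨x, mem_closedBall_zero_iff.2 hx, hH2 x h.ge⟩
  obtain ⟨σ, hσi, hσL, hσb, hσ⟩ := exists_shrink' n hδ
  obtain ⟨G, O, R', hG1, hG2, hG3, hG4⟩ := hE n (fun x => H' (σ x))
    (fun x y hxy => hσi (hH'i _ _ (hσb x) (hσb y) hxy))
    (fun x => LD.comp_fun (g := H') (f := σ) (hH'L _ (hσb x)) (hσL x)) 1
  have hG5 : ∀ x, ‖x‖ ≤ 1 → G x = H' x := by
    intro x hx
    rw [hG3 x hx]
    simp only [hσ x hx]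
  refine ⟨G, O, R', hG1, hG2, ?_, ?_, ?_, hG4⟩
  · -- the compact set `UB '' C` stays away from the unit sphere
    have hs : ∃ s < 1, ∀ y ∈ UB n '' C, ‖y‖ < s := by
      rcases (UB n '' C).eq_empty_or_nonempty with he | hne
      · refine ⟨0, one_pos, fun y hy => ?_⟩
        rw [he] at hy
        exact hy.elim
      · obtain ⟨y₀, hy₀, hmax⟩ := hBC.exists_isMaxOn hne continuous_norm.continuousOn
        refine ⟨(‖y₀‖ + 1) / 2, by linarith [hBCs y₀ hy₀], fun y hy => ?_⟩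
        have h1 : ‖y‖ ≤ ‖y₀‖ := hmax hy
        linarith [hBCs y₀ hy₀]
    obtain ⟨s, hs1, hs⟩ := hs
    refine ⟨s, hs1, fun x hx hx1 => ?_⟩
    rw [hG5 x hx1]
    exact hH3 x fun hc => absurd (hs x hc) (not_lt.2 hx)
  · rw [← hH'im]
    exact image_congr fun x hx => hG5 x (mem_closedBall_zero_iff.1 hx)
  · intro x hx
    rw [hG5 x hx]
    rcases hx.lt_or_eq with h | h
    · rw [hH1 x h]
      have h1 := hcl ((UB n).symm x)
      rwa [UB_right n h] at h1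
    · rw [hH2 x h.ge, sub_self, norm_zero]
      exact hε.le

/-- **Smooth Schoenflies theorem** for smoothable balls. -/
theorem fin (n : ℕ) (H : E n → E n) (δ : ℝ) (hδ : 0 < δ)
    (hHc : ContinuousOn H (ball 0 (1 + δ)))
    (hHi : InjOn H (ball 0 (1 + δ))) (hHL : ∀ x, 1 ≤ ‖x‖ → ‖x‖ < 1 + δ → LD n H x)
    (hS : IsCompact {x | ¬ LD n (fun y => H (UB n y)) x} → Smoothable n (fun y => H (UB n y)))
    {ε : ℝ} (hε : 0 < ε) :
    ∃ (G : E n → E n) (O : E n ≃ₗᵢ[ℝ] E n) (R' : ℝ), Bijective G ∧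
      (∀ x, LD n G x) ∧ (∃ s < 1, ∀ x, s ≤ ‖x‖ → ‖x‖ ≤ 1 → G x = H x) ∧
      G '' closedBall 0 1 = H '' closedBall 0 1 ∧
      (∀ x, ‖x‖ ≤ 1 → ‖G x - H x‖ ≤ ε) ∧ ∀ x, R' ≤ ‖x‖ → G x = O x := by
  have hsub : ball (0 : E n) 1 ⊆ ball 0 (1 + δ) := ball_subset_ball (by linarith)
  have hFc : Continuous (fun y => H (UB n y)) := by
    have h1 : ContinuousOn H (ball 0 1) := hHc.mono hsub
    exact h1.comp_continuous (UB_continuous n) fun x => mem_ball_zero_iff.2 (UB_norm _ x)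
  have hFi : Injective (fun y => H (UB n y)) := by
    intro x y hxy
    exact UB_inj n (hHi (hsub (mem_ball_zero_iff.2 (UB_norm _ x)))
      (hsub (mem_ball_zero_iff.2 (UB_norm _ y))) hxy)
  have hFo : IsOpenMap (fun y => H (UB n y)) := by
    refine IsOpenMap.of_nhds_le fun x s hs => ?_
    obtain ⟨r, hr, hrs⟩ := Metric.nhds_basis_closedBall.mem_iff.1 (Filter.mem_map.1 hs)
    have h1 := Pool.Agent.Helper514.IoD.image_mem_nhds (fun y => H (UB n y)) x r hr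
      hFc.continuousOn hFi.injOn
    refine mem_of_superset h1 ?_
    rintro _ ⟨y, hy, rfl⟩
    exact hrs hy
  have hFe : IsOpenEmbedding (fun y => H (UB n y)) :=
    IsOpenEmbedding.of_continuous_injective_isOpenMap hFc hFi hFo
  obtain ⟨C, hC, hCs⟩ := hS (isCompact_bad n H fun x hx => hHL x hx.ge (by linarith))
  -- room in the range
  have hroom : ∃ ε₁ > 0, ∀ x ∈ C, ∀ z, ‖z - H (UB n x)‖ ≤ ε₁ →
      z ∈ range (fun y => H (UB n y)) := by
    have hIc : IsCompact ((fun y => H (UB n y)) '' C) := hC.image hFc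
    obtain ⟨r, hr, hr2⟩ := hIc.exists_cthickening_subset_open hFe.isOpen_range
      (image_subset_range _ _)
    refine ⟨r, hr, fun x hx z hz => hr2 ?_⟩
    refine mem_cthickening_of_dist_le z (H (UB n x)) r _ ⟨x, hx, rfl⟩ ?_
    rwa [dist_eq_norm]
  obtain ⟨ε₁, hε₁, hroom⟩ := hroom
  obtain ⟨F', h1, h2, h3⟩ := hCs (min ε ε₁) (lt_min hε hε₁)
  obtain ⟨hF'i, hF'r⟩ := Pool.Agent.Y702.SH.coverV n (E n) (fun y => H (UB n y)) F' C hFe
    (isPreconnected_range hFc) hC h1 (by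
      intro p
      by_cases hp : p ∈ C
      · exact hroom p hp _ ((h3 p).trans (min_le_right _ _))
      · rw [h1 p hp]
        exact mem_range_self p) h2
  exact finish2 Pool.Agent.Y702.SH.extO n H δ hδ hHi hHL F' C hC hF'i hF'r h1 h2 hε
    fun x => (h3 x).trans (min_le_left _ _)

/-- the parametrizations, transferred by `UB` -/
theorem param (n : ℕ) (H : E n → E n) {x : E n} (A : E n → E n)
    (hA0 : A 0 = UB n x) (hA : LD n A 0) :
    (UB n).symm (A 0) = x ∧ LD n (fun p => (UB n).symm (A p)) 0 ∧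
      ∀ᶠ p in 𝓝 (0 : E n), H (UB n ((UB n).symm (A p))) = H (A p) := by
  refine ⟨by rw [hA0, UB_left], ?_, ?_⟩
  · refine LD.comp_fun (g := (UB n).symm) (f := A) ?_ hA
    exact UB_symm_LD n (by rw [hA0]; exact UB_norm n x)
  · have h1 : ∀ᶠ p in 𝓝 (0 : E n), ‖A p‖ < 1 := by
      have h2 : ContinuousAt (fun p => ‖A p‖) 0 := hA.continuousAt.norm
      refine h2.eventually (gt_mem_nhds ?_)
      show ‖A 0‖ < 1
      rw [hA0]
      exact UB_norm n x
    filter_upwards [h1] with p hp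
    rw [UB_right n hp]

theorem finA (n : ℕ) (H : E n → E n) (δ : ℝ) (hδ : 0 < δ)
    (hHc : ContinuousOn H (ball 0 (1 + δ)))
    (hHi : InjOn H (ball 0 (1 + δ))) (hHL : ∀ x, 1 ≤ ‖x‖ → ‖x‖ < 1 + δ → LD n H x)
    (h : ∀ x, ‖x‖ < 1 → ¬ LD n H x → ∃ A : E n → E n, A 0 = x ∧ LD n A 0 ∧
      AAc (fun p => H (A p)))
    {ε : ℝ} (hε : 0 < ε) :
    ∃ (G : E n → E n) (O : E n ≃ₗᵢ[ℝ] E n) (R' : ℝ), Bijective G ∧
      (∀ x, LD n G x) ∧ (∃ s < 1, ∀ x, s ≤ ‖x‖ → ‖x‖ ≤ 1 → G x = H x) ∧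
      G '' closedBall 0 1 = H '' closedBall 0 1 ∧
      (∀ x, ‖x‖ ≤ 1 → ‖G x - H x‖ ≤ ε) ∧ ∀ x, R' ≤ ‖x‖ → G x = O x := by
  have hsub : ball (0 : E n) 1 ⊆ ball 0 (1 + δ) := ball_subset_ball (by linarith)
  refine fin n H δ hδ hHc hHi hHL (fun hK => smoothingAC _ ?_ ?_ hK ?_) hε
  · have h1 : ContinuousOn H (ball 0 1) := hHc.mono hsub
    exact h1.comp_continuous (UB_continuous n) fun x => mem_ball_zero_iff.2 (UB_norm _ x)
  · intro x y hxy
    exact UB_inj n (hHi (hsub (mem_ball_zero_iff.2 (UB_norm _ x)))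
      (hsub (mem_ball_zero_iff.2 (UB_norm _ y))) hxy)
  · intro x hx
    obtain ⟨A, hA0, hA, hAA⟩ := h (UB n x) (UB_norm n x) fun hc => hx ((LD_iff n H x).2 hc)
    obtain ⟨h1, h2, h3⟩ := param n H A hA0 hA
    exact ⟨fun p => (UB n).symm (A p), h1, h2, hAA.congr h3⟩

theorem finP (n : ℕ) (H : E n → E n) (δ : ℝ) (hδ : 0 < δ)
    (hHc : ContinuousOn H (ball 0 (1 + δ)))
    (hHi : InjOn H (ball 0 (1 + δ))) (hHL : ∀ x, 1 ≤ ‖x‖ → ‖x‖ < 1 + δ → LD n H x)
    (h : ∀ x, ‖x‖ < 1 → ¬ LD n H x → ∃ ρ, Good n ρ ∧ BiLipAt n H ρ x)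
    {ε : ℝ} (hε : 0 < ε) :
    ∃ (G : E n → E n) (O : E n ≃ₗᵢ[ℝ] E n) (R' : ℝ), Bijective G ∧
      (∀ x, LD n G x) ∧ (∃ s < 1, ∀ x, s ≤ ‖x‖ → ‖x‖ ≤ 1 → G x = H x) ∧
      G '' closedBall 0 1 = H '' closedBall 0 1 ∧
      (∀ x, ‖x‖ ≤ 1 → ‖G x - H x‖ ≤ ε) ∧ ∀ x, R' ≤ ‖x‖ → G x = O x := by
  have hsub : ball (0 : E n) 1 ⊆ ball 0 (1 + δ) := ball_subset_ball (by linarith)
  refine fin n H δ hδ hHc hHi hHL (fun hK => smoothingPC _ ?_ hK ?_) hε
  · have h1 : ContinuousOn H (ball 0 1) := hHc.mono hsub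
    exact h1.comp_continuous (UB_continuous n) fun x => mem_ball_zero_iff.2 (UB_norm _ x)
  · intro x hx
    obtain ⟨ρ, hρ, A, hA0, hA, α, r, hα, hr, hAA⟩ :=
      h (UB n x) (UB_norm n x) fun hc => hx ((LD_iff n H x).2 hc)
    obtain ⟨h1, h2, h3⟩ := param n H A hA0 hA
    obtain ⟨s, hs, h4⟩ := Metric.eventually_nhds_iff_ball.1 h3
    refine ⟨ρ, hρ, fun p => (UB n).symm (A p), h1, h2, α, min r (s / 2), hα,
      lt_min hr (by linarith), fun p q hp hq => ?_⟩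
    have h5 : ∀ z : E n, ‖z‖ ≤ min r (s / 2) → H (UB n ((UB n).symm (A z))) = H (A z) := by
      intro z hz
      apply h4
      rw [mem_ball_zero_iff]
      linarith [hz.trans (min_le_right r (s / 2))]
    simp only [h5 p hp, h5 q hq]
    exact hAA p q (hp.trans (min_le_left _ _)) (hq.trans (min_le_left _ _))

end Pool.Agent.U987.SB
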